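import Mathlib
import Pool.Agent.MEN.Fin

/-!
# Large sets of integers with small multiplicative energy: all attained pairs

For `B ⊆ {1, ..., N}` let `E(B, N)` be the number of `(a, b, c, d)` with `a, c ∈ B`,
`1 ≤ b, d ≤ N`, `a * b = c * d`. A pair `(α, β)` is attained if there are sets
`B_N ⊆ {1, ..., N}` of density `(log N) ^ (-α)` with `E(B_N, N) ≪ N |B_N| (log N) ^ β`.
We determine all attained pairs, the boundary included.
-/

namespace Pool.Agent.Results.MP_2883d2_nt.AttainedPairs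

open Finset

/-- the mixed multiplicative energy: the number of `(a, b, c, d)` with `a, c ∈ B`,
`1 ≤ b, d ≤ N` and `a * b = c * d` -/
def energy (B : Finset ℕ) (N : ℕ) : ℕ :=
  (((B ×ˢ Icc 1 N) ×ˢ (B ×ˢ Icc 1 N)).filter (fun x => x.1.1 * x.1.2 = x.2.1 * x.2.2)).card

/-- the pair `(α, β)` is attained: there are sets `B N ⊆ {1, ..., N}`, `N ≥ N₀`, with
`c N (log N) ^ (-α) ≤ |B N| ≤ C N (log N) ^ (-α)` and
`energy (B N) N ≤ K N |B N| (log N) ^ β` -/
def Attained (α β : ℝ) : Prop :=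
  ∃ (B : ℕ → Finset ℕ) (N₀ : ℕ) (c C K : ℝ), 0 < c ∧ ∀ N : ℕ, N₀ ≤ N →
    B N ⊆ Icc 1 N ∧
    c * (N * Real.log N ^ (-α)) ≤ ((B N).card : ℝ) ∧
    ((B N).card : ℝ) ≤ C * (N * Real.log N ^ (-α)) ∧
    (energy (B N) N : ℝ) ≤ K * (N * (B N).card * Real.log N ^ β)

/-- `A y = k log k - k + 1` with `k = y + y²` (strictly decreasing from `1` to `0` for
`0 < k ≤ 1`) -/
noncomputable def A (y : ℝ) : ℝ := (y + y ^ 2) * Real.log (y + y ^ 2) - (y + y ^ 2) + 1

/-- `S y = 2 k log (1 + y) - y²` with `k = y + y²` (strictly increasing) -/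
noncomputable def S (y : ℝ) : ℝ := 2 * (y + y ^ 2) * Real.log (1 + y) - y ^ 2

/-- **Theorem.** (1) There is an attained pair with `α + β < 1/2` (Question 1).
(2) Classification: for `α, β ≥ 0` the pair `(α, β)` is attained if and only if `α ≥ 1`, or
`0 < α < 1` and `α + β > S y`, where `y` is the number with `y > 0`, `y + y² ≤ 1`, `A y = α`, or
`α = 0` and `β ≥ S y`, where `y + y² = 1` (then `S y = 0.5804...`).
(3) With the number `y = 0.3553...` in `(1/4, 1/2)` with `1 - y = y (1 + y) log (1 + 1 / y)`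
and `η = A y = 0.1665...`: every attained pair has `α + β > η`, and `(α, 0)` is attained for every
`α > η`; so `η` is the infimum of `α + β` over the attained pairs and it is not attained. -/
theorem result :
    (∃ α β : ℝ, 0 ≤ α ∧ 0 ≤ β ∧ α + β < 1 / 2 ∧ Attained α β) ∧
    (∀ α β : ℝ, 0 ≤ α → 0 ≤ β → (Attained α β ↔
      1 ≤ α ∨ ∃ y : ℝ, 0 < y ∧ y + y ^ 2 ≤ 1 ∧ A y = α ∧
        (S y < α + β ∨ (α = 0 ∧ S y ≤ β)))) ∧
    (∃ y : ℝ, 1 / 4 < y ∧ y < 1 / 2 ∧ 1 - y = y * (1 + y) * Real.log (1 + 1 / y) ∧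
      (∀ α β : ℝ, 0 ≤ α → 0 ≤ β → Attained α β → A y < α + β) ∧
      (∀ α : ℝ, A y < α → Attained α 0)) := by
  obtain ⟨y, h1, h2, h3, h4, h5, h6⟩ := MEN.main_inf
  refine ⟨⟨(MEN.A y + 1 / 2) / 2, 0, ?_, le_rfl, by linarith, h5 _ (by linarith)⟩, ?_,
    ⟨y, h1, h2, h3, h4, h5⟩⟩
  · have h7 : 0 < MEN.A y := MEN.A_pos (by linarith) (by nlinarith)
    linarith
  · intro α β hα hβ
    refine (MEN.main_iff hα hβ).trans (or_congr Iff.rfl (exists_congr fun t => ?_))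
    refine and_congr Iff.rfl (and_congr Iff.rfl (and_congr eq_comm (or_congr Iff.rfl ?_)))
    constructor
    · rintro ⟨h7, h8⟩
      rw [h7, zero_add] at h8
      exact ⟨h7, h8⟩
    · rintro ⟨h7, h8⟩
      refine ⟨h7, ?_⟩
      rw [h7, zero_add]
      exact h8

end Pool.Agent.Results.MP_2883d2_nt.AttainedPairs
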